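import Pool.Agent.W994.DE.Asym

/-!
# P versus polylogarithmic space for nondeterministic thrifty branching programs

The evaluation problem for a directed acyclic graph: every node `i` has a table
`[k]^(deg i) → [k]`, the value of a node is the entry of its table at the values of its children,
and a property of the value of a node `r` is to be decided. This is in `P`. Branching programs
which query the entries of the tables are *thrifty* (Cook, McKenzie, Wehr, Braverman, Santhanam,
*Pebbles and branching programs for tree evaluation*, 2012) if their accepting computations query
only relevant variables: entries at the true values of the children. Thrifty programs correspond to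
pebbling strategies; log size is space.

For trees there are small nondeterministic thrifty programs (starting file `ThriftyGap`). We show
that for general graphs there are none: the logarithm of the size of a nondeterministic program is
at least of the order of the minimum of `p` and of the square root of `p * log k`, if `p` pebbles are
needed. So for pyramids
nondeterministic space `N ^ ε` is not enough, although a deterministic thrifty program needs time
`N ^ (1/4)` only. The lower bound also holds if a few irrelevant variables may be queried.

Proof idea. Choose for each assignment `w` of values to the nodes a short accepting computation on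
an input with these values. A node is missing in an interval of time if one of its parents is read
in it, but not the node itself. If each interval had few missing nodes, then one could pebble the
graph by a recursion like that of Savitch, with `2 p log T` pebbles. So there is an interval with
many missing nodes. Two computations, for `w` and `z`, which pass through the same states at the ends
of such intervals and differ only in the values of the missing nodes can be combined to a
computation which reads irrelevant variables.
-/

set_option autoImplicit false

namespace Pool.Agent.Results.MP_9dcf40_lc.NondetThriftyDag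

open Pool.Agent.W994.DE Pool.Agent.W994.DE.Dag
open Pool.Agent.H554R2.Thrifty (BP)

/-- (1) If a nondeterministic program with at most `2 ^ s` states decides a nontrivial property `S`
of the value of the node `r` of a graph with fan-in at most `d` and `n` nodes over the alphabet `[k]`,
`k ≥ (2 n) ^ 2`, and no accepting computation reads more than `t` irrelevant variables (`t = 0` for
thrifty programs), then `r` can be pebbled with
`2 (3 d t + 2 + (4 s + 2) / log k) s + 1` pebbles.

(2) The pyramid of height `h` needs `h + 1` pebbles (Cook 1974).

(3) So for each `ε < 1/20` and all large `h`, with `k = 4 (h + 1) ^ 4` and `N` the number of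
variables of the evaluation problem for the pyramid of height `h`, a nondeterministic program which
decides a nontrivial property of the value of the top and whose accepting computations read at most
`N ^ ε` irrelevant variables has more than `2 ^ (N ^ ε)` states.

(4) For all `h ≥ 1` a deterministic thrifty program solves the problem with at most `N ^ (1/4)`
steps. -/
theorem result :
    (∀ (G : Dag) (r : G.V) (k d t s : ℕ) (S : Fin k → Bool), (∃ a, S a = true) →
      (∃ b, S b = false) → (∀ i, G.deg i ≤ d) → (2 * Fintype.card G.V) ^ 2 ≤ k →
      ∀ P : BP (G.Var k) k, Decides P r S → Waste P t → P.size ≤ 2 ^ s →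
        G.Pebblable (2 * (3 * (d * t) + 2 + (4 * s + 2) / Nat.log 2 k) * s + 1) r) ∧
    (∀ h s : ℕ, (pyramid h).Pebblable s (pyrTop h) → h + 1 ≤ s) ∧
    (∀ ε : ℝ, 0 < ε → ε < 1 / 20 → ∃ h₀ : ℕ, ∀ h : ℕ, h₀ ≤ h → ∀ k : ℕ, k = 4 * (h + 1) ^ 4 →
      ∀ N : ℕ, N = Fintype.card ((pyramid h).Var k) →
      ∀ (S : Fin k → Bool), (∃ a, S a = true) → (∃ b, S b = false) →
      ∀ (P : BP ((pyramid h).Var k) k) (t : ℕ),
        Decides P (pyrTop h) S → Waste P t → (t : ℝ) ≤ (N : ℝ) ^ ε →
        (N : ℝ) ^ ε < Real.logb 2 P.size) ∧
    (∀ h k N : ℕ, 1 ≤ h → k = 4 * (h + 1) ^ 4 → N = Fintype.card ((pyramid h).Var k) →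
      ∀ S : Fin k → Bool, ∃ P : BP ((pyramid h).Var k) k, P.Deterministic ∧
        P.Solves (fun x => S (value x (pyrTop h))) ∧
        ∀ x l R, P.IsComp x l R → ((l.length : ℝ) ≤ (N : ℝ) ^ (1 / 4 : ℝ) ∧
          ∀ q ∈ l, Relevant x (P.query q))) :=
  ⟨fun _ _ _ _ _ _ _ ⟨_, ha⟩ ⟨_, hb⟩ hd hk _ hP hW hs => main_nd hP ha hb hW hd hs hk,
    fun _ _ h => pyramid_pebbles h,
    fun ε hε hε' => pyramid_asym ε hε hε',
    fun _ _ _ hh hk hN S => pyramid_upper hh hk hN S⟩

end Pool.Agent.Results.MP_9dcf40_lc.NondetThriftyDag
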