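import Pool.Agent.W953.PD.NumL

/-!
# P versus POLYLOGSPACE: directed networks with few negations, on few slices

An accepting computation of a (nondeterministic) machine with space `S` on words of length `n` is a
path in a directed graph with `2 ^ O(S)` nodes, whose edges are labelled by literals. Here
computations in rounds are considered whose tests are directed networks with labelled edges, but
without negations; every round depends on the answers of the earlier rounds, and the `cost` is the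
maximum of the product of the numbers (number of tests of the round) + 1, so that `t` tests one
after the other (`t` NOT gates) have cost `2 ^ t`.

There is a language `L` of a deterministic two-way pushdown automaton with one head (so `L` is in P)
such that for some tags of the `n` positions `L` is monotone in the `n` bits, but computations of
cost `M` and space `ℓ` (size `2 ^ ℓ`) do not agree with `L` on the inputs with between `k` and
`k + U` ones, if `M ℓ ^ (2 + ε) ≤ U ≤ n - k` and `M ℓ ^ (4 + ε) ≤ n`. For polylogarithmic space: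
`M (log n) ^ (2 c + 1) ≤ U`, `M (log n) ^ (4 c + 1) ≤ n`.
-/

set_option autoImplicit false

namespace Pool.Agent.Results.MP_9dcf40_lc.PushdownOnSlices

open Pool.Agent.W953.SP Pool.Agent.W953.SR Pool.Agent.W953.NB Pool.Agent.H541R2

/-- the number of ones of an input -/
def ones {n : ℕ} (x : Fin n → Bool) : ℕ := (Finset.univ.filter (fun i => x i = true)).card

/-- the word with the tags `t` and the bits `x` is in `L` -/
def Word {Tag : Type} (L : Set (List (Tag × Bool))) {n : ℕ} (t : Fin n → Tag)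
    (x : Fin n → Bool) : Prop :=
  List.ofFn (fun i => (t i, x i)) ∈ L

/-- For some tags `t` of the positions, `L` is monotone in the `n` bits, and no computation in
rounds of cost at most `M`, in which the directed networks that are asked on any path have total
size at most `s`, agrees with `L` on the inputs with at least `k` and at most `k + U` ones, for any
`k ≤ n - U`. -/
def HardOnSlices {Tag : Type} (L : Set (List (Tag × Bool))) (n U M s : ℕ) : Prop :=
  ∃ t : Fin n → Tag, (∀ x y : Fin n → Bool, x ≤ y → Word L t x → Word L t y) ∧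
    ∀ k, k + U ≤ n → ∀ p : Prog (Net (Fin n)), p.cost ≤ M → p.load (dnetTests _) ≤ s →
      ∃ x, k ≤ ones x ∧ ones x ≤ k + U ∧ ¬ (p.Acc (dnetTests _) x ↔ Word L t x)

/-- One language of a two-way deterministic pushdown automaton with one head. (1) For every `j ≥ 1`
and all large `ℓ` it is hard for cost `M ≥ 1` and size `2 ^ ℓ` if `M ^ j ℓ ^ (2 j + 1) ≤ U ^ j`,
`U ≤ n` and `M ^ j ℓ ^ (4 j + 1) ≤ n ^ j`. (2) For every `c ≥ 1` and all large `n` it is hard for
cost `M ≥ 1` and size `2 ^ ((log n) ^ c)` if `M (log n) ^ (2 c + 1) ≤ U ≤ n` and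
`M (log n) ^ (4 c + 1) ≤ n`. -/
theorem result : ∃ (Tag : Type) (_ : Fintype Tag) (L : Set (List (Tag × Bool))), TwoDPDA L ∧
    (∀ j : ℕ, 1 ≤ j → ∃ ℓ₀ : ℕ, ∀ ℓ M U n : ℕ, ℓ₀ ≤ ℓ → 1 ≤ M →
      M ^ j * ℓ ^ (2 * j + 1) ≤ U ^ j → U ≤ n → M ^ j * ℓ ^ (4 * j + 1) ≤ n ^ j →
      HardOnSlices L n U M (2 ^ ℓ)) ∧
    ∀ c : ℕ, 1 ≤ c → ∃ n₀ : ℕ, ∀ M U n : ℕ, n₀ ≤ n → 1 ≤ M →
      M * Nat.log 2 n ^ (2 * c + 1) ≤ U → U ≤ n → M * Nat.log 2 n ^ (4 * c + 1) ≤ n →
      HardOnSlices L n U M (2 ^ (Nat.log 2 n ^ c)) := by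
  have main : ∀ ℓ D M U n : ℕ, (ℓ + 3) ^ 2 ≤ 2 * D + 1 → 1 ≤ M → 5 * M * W953.PT.vno D ≤ U →
      U ≤ n → 45 * M * W953.PT.vno D ^ 2 ≤ n →
      HardOnSlices Pool.Agent.H257R4.TP.LL n U M (2 ^ ℓ) := by
    intro ℓ D M U n hD hM hU hUn hn
    have hpow : 2 ^ (ℓ ^ 2 + 5 * ℓ + 7) * 2 ^ ℓ < 4 ^ (D + 1) := by
      have h4 : (4 : ℕ) ^ (D + 1) = 2 ^ (2 * (D + 1)) := by rw [pow_mul]; norm_num
      rw [h4, ← pow_add]
      apply Nat.pow_lt_pow_right (by norm_num)
      have : (ℓ + 3) ^ 2 = ℓ ^ 2 + 6 * ℓ + 9 := by ring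
      omega
    have hsp : RankTests (spTests (Fin n)) := by
      intro P
      exact ⟨P.F, inferInstance, fun X Y _ _ _ _ A α β U _ hU hβ m hm =>
        P.rank_le A α β U hU hβ m hm⟩
    obtain ⟨t, h1, h2⟩ := Pool.Agent.W953.PD.pda_hard.{1} D M U n hM hU hUn hn
    refine ⟨t, fun x y hxy hx => h1 x y (fun i hi => ?_) hx, fun k hk p hcost hp => ?_⟩
    · have := hxy i
      rw [hi] at this
      exact top_le_iff.mp this
    · obtain ⟨g, hg⟩ := exists_toMSP (I := Fin n) ℓ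
      obtain ⟨x, x1, x2, x3⟩ := h2 _ (spTests (Fin n)) hsp (spTests_mono _) k hk (p.map g)
        (by rw [Prog.map_cost]; exact hcost)
        (lt_of_le_of_lt (Prog.map_load (dnetTests _) (spTests _) g _ (2 ^ ℓ)
          (fun P hP => (hg P hP).1) p hp) (lt_of_le_of_lt (Nat.mul_le_mul_left _ hp) hpow))
      refine ⟨x, x1, x2, fun hx => x3 ?_⟩
      refine Iff.trans ?_ hx
      exact Prog.map_acc (dnetTests _) (spTests _) g (2 ^ ℓ) x
        (fun P hP => (hg P hP).2 x) p hp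
  have law : ∀ j : ℕ, 1 ≤ j → ∃ ℓ₀ : ℕ, ∀ ℓ M U n : ℕ, ℓ₀ ≤ ℓ → 1 ≤ M →
      M ^ j * ℓ ^ (2 * j + 1) ≤ U ^ j → U ≤ n → M ^ j * ℓ ^ (4 * j + 1) ≤ n ^ j →
      HardOnSlices Pool.Agent.H257R4.TP.LL n U M (2 ^ ℓ) := by
    intro j hj
    obtain ⟨ℓ₀, h⟩ := Pool.Agent.W953.PD.num_space j hj
    refine ⟨ℓ₀, fun ℓ M U n hℓ hM hU hUn hn => ?_⟩
    obtain ⟨D, d1, d2, d3⟩ := h ℓ hℓ
    exact main ℓ D M U n d1 hM (d2 M U hU) hUn (d3 M n hn)
  refine ⟨Pool.Agent.H257R4.TP.Tag, inferInstance, Pool.Agent.H257R4.TP.LL,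
    ⟨Pool.Agent.H257R4.TP.St, Pool.Agent.H257R4.TP.Sy, inferInstance, inferInstance,
      Pool.Agent.H257R4.TP.del, .q0, {.acc}, fun w => Iff.rfl⟩, law, fun c hc => ?_⟩
  obtain ⟨ℓ₀, h⟩ := law c hc
  refine ⟨2 ^ ℓ₀, fun M U n hn hM hU hUn hn' => ?_⟩
  have hl : ℓ₀ ≤ Nat.log 2 n := Nat.le_log_of_pow_le (by norm_num) hn
  obtain ⟨a, ha⟩ : ∃ a, a = Nat.log 2 n := ⟨_, rfl⟩
  rw [← ha] at hl hU hn' ⊢
  refine h (a ^ c) M U n (hl.trans (Nat.le_self_pow (by omega) a)) hM ?_ hUn ?_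
  · calc M ^ c * (a ^ c) ^ (2 * c + 1) = (M * a ^ (2 * c + 1)) ^ c := by
          rw [mul_pow, ← pow_mul, ← pow_mul, Nat.mul_comm c]
      _ ≤ U ^ c := Nat.pow_le_pow_left hU c
  · calc M ^ c * (a ^ c) ^ (4 * c + 1) = (M * a ^ (4 * c + 1)) ^ c := by
          rw [mul_pow, ← pow_mul, ← pow_mul, Nat.mul_comm c]
      _ ≤ n ^ c := Nat.pow_le_pow_left hn' c

end Pool.Agent.Results.MP_9dcf40_lc.PushdownOnSlices
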