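import Pool.Agent.W997.SR.Stmt

/-!
# The space-reads curve for grid evaluation

The nodes of the grid are the pairs `(i, j)` with `i, j ≤ h`, every node has a table with
`k = 2 ^ ℓ` letters of an alphabet with `k` letters; the value of a node `(i, j)` with `i, j < h` is
the entry of its table which belongs to the sum of the values of `(i + 1, j)` and `(i, j + 1)`, and
the value of a node on the boundary is the entry `0` of its table.  With `N = (h + 1) ^ 2 * k` the
number of letters, the lowest bit of the value of the corner `(0, 0)`

* is computed by Boolean circuits of size `12 ℓ ^ 2 N ^ 2` and depth `10 h ℓ + 1`;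
* is computed in `(h + 1) ^ 2` steps by a deterministic branching program of log size
  `O(h ℓ)`;
* but for all `r ≥ 2 (h + 1) ^ 4`, deterministic branching programs of log size at most
  `h log r / 8` have to read on average `N / (r (h + 1) ^ 3)` letters, no matter how long they run,
  even if they are right only on a fraction of `1 / 2 + 1 / (h + 1)` of the inputs.

In particular no degree of a polylogarithmic space bound suffices if not almost all letters are
read.

Proof idea.  Call a node live if the rest of the computation reads its value before it evaluates
it.  If on an input only few entries of every table are read, then the first state of the rest of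
the computation determines the values of a set of `m` independent live nodes up to few
possibilities; since the sum is a bijection in each argument, the values of the nodes can be chosen
one after the other, which gives a union bound over the states.  In the grid there is a moment with
`(h + 1) / 2` independent live nodes: consider the last moment at which some monotone path from the
corner to the boundary is free of live nodes; then all paths which branch off from it contain a live
node, and these nodes are independent if one takes those of one parity.
-/

set_option autoImplicit false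

namespace Pool.Agent.Results.MP_9dcf40_lc.SpaceReadsCurve

open Pool.Agent.W997.SR
open Pool.Agent.W997.DB (ByCircuit ByProgram HardReads)

/-- For all `h ≥ 4` and `ℓ ≥ 1`, with `N` the number of variables of the grid with `(h + 1) ^ 2`
nodes and tables with `2 ^ ℓ` letters, the lowest bit of the value of the corner

* is computed by Boolean circuits of size at most `12 * ℓ ^ 2 * N ^ 2` and depth at most
  `10 * h * ℓ + 1`,
* is computed by a deterministic branching program of log size
  `(h + 1) * ℓ * log 2 + 2 * log (h + 1)` which stops after at most `(h + 1) ^ 2` steps,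
* and for all `r ≥ 2 * (h + 1) ^ 4` every deterministic branching program of log size at most
  `h * log r / 8` which halts on all inputs, with the right answer on a fraction of at least
  `1 / 2 + 1 / (h + 1)` of them, reads on average at least `N / (r * (h + 1) ^ 3)` different
  variables.

Moreover for every degree `c ≥ 1`, for all large `ℓ` and all `ℓ ^ (c + 1) ≤ h ≤ 2 ^ ℓ`, every
deterministic branching program of log size at most `(log N) ^ c` which halts on all inputs, with
the right answer on a fraction of at least `1 / 2 + 1 / log N` of them, reads on average at least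
`N / (2 * (h + 1) ^ 7)` different variables. -/
theorem result :
    (∀ h ℓ : ℕ, 4 ≤ h → 1 ≤ ℓ → ∀ N : ℝ, N = Fintype.card (Var h (2 ^ ℓ)) →
      ByCircuit (cornerBit h ℓ) (12 * (ℓ : ℝ) ^ 2 * N ^ 2) (10 * (h : ℝ) * ℓ + 1) ∧
      ByProgram (cornerBit h ℓ) (((h : ℝ) + 1) * ℓ * Real.log 2 + 2 * Real.log ((h : ℝ) + 1))
        (((h : ℝ) + 1) ^ 2) (((h : ℝ) + 1) ^ 2) ∧
      ∀ r : ℝ, 2 * ((h : ℝ) + 1) ^ 4 ≤ r →
        HardReads (cornerBit h ℓ) ((h : ℝ) * Real.log r / 8) (1 / ((h : ℝ) + 1))
          (N / (r * ((h : ℝ) + 1) ^ 3))) ∧
    ∀ c : ℕ, 1 ≤ c → ∃ ℓ₀ : ℕ, ∀ ℓ : ℕ, ℓ₀ ≤ ℓ → ∀ h : ℕ, ℓ ^ (c + 1) ≤ h → h ≤ 2 ^ ℓ →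
      ∀ N : ℝ, N = Fintype.card (Var h (2 ^ ℓ)) →
      HardReads (cornerBit h ℓ) (Real.log N ^ c) (1 / Real.log N)
        (N / (2 * ((h : ℝ) + 1) ^ 7)) :=
  ⟨fun h ℓ hh hℓ N hN => ⟨byCircuit h ℓ hℓ N hN, byProgram h ℓ,
    fun r hr => hardReads h ℓ hh hℓ N hN r hr⟩, fun c hc => polylog c hc⟩

end Pool.Agent.Results.MP_9dcf40_lc.SpaceReadsCurve
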